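import Pool.Agent.Results.MP_711652_nt.ThinTranslates
import Pool.Agent.X31.S2

/-!
# Primes at a distance of at most a power of the logarithm, on the translates of arbitrary dense sets by all the integers
# near the values of polynomials at integers with missing digits

`f` is an arbitrary real polynomial of degree `d ≥ 2` (only the size of the leading coefficient is restricted), `C` is the
set of the integers with `m` digits in base `b` whose digit at `b ^ j` is in `𝒟 j`, where the sets `𝒟 j` of allowed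
digits are arbitrary with at least TWO elements (for instance: the integers with the decimal digits `0` and `1` only;
such sets can be as thin as `N ^ ε`).
For almost all elements `n` of an ARBITRARY dense subset `M` of `C`, ALL integers `s` within `log ^ D N` of the value
at `n` are such that on the translate `A + s` of an arbitrary dense set `A ⊆ {1, ..., N}` the intervals of a length of
at least `(log N) ^ K` to the right of the points contain the expected number of primes on average, and at least `ε`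
times this number for a proportion of at least `1 / 4 - ε` of the points.

The minimal real additive energy of the values of polynomials at the integers with missing digits is from
`Pool.Agent.X31.K1` - `K9` (in this run);
the theorem for families of small energy is in the starting files (`MP_711652_nt.ThinTranslates`).
-/

set_option autoImplicit false

namespace Pool.Agent.Results.MP_69be96_nt.MissingDigitTranslates

open Finset
open scoped Polynomial

/-- the integers `0 ≤ n < b ^ m` whose digit at `b ^ j` in base `b` is in `𝒟 j`, for all `j < m` -/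
def Digits (b : ℕ) (𝒟 : ℕ → Finset ℕ) (m : ℕ) : Finset ℕ :=
  (range (b ^ m)).filter (fun n => ∀ j < m, n / b ^ j % b ∈ 𝒟 j)

/-- `M` is a subset with at least `#(Digits b 𝒟 m) / log ^ D N` elements of the set `Digits b 𝒟 m`, where all sets `𝒟 j`
of allowed digits have at least two elements; `f` is a real polynomial of degree at most `d`, the coefficient of `x ^ d`
is at most `log ^ D N` and at least `N / (b ^ (d m) log ^ D N)` in absolute value, and `|f| ≤ N` on `M`. -/
def Fam (b d D N m : ℕ) (𝒟 : ℕ → Finset ℕ) (f : ℝ[X]) (M : Finset ℕ) : Prop :=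
  (∀ j, 𝒟 j ⊆ range b ∧ 2 ≤ (𝒟 j).card) ∧
  f.natDegree ≤ d ∧ |f.coeff d| ≤ Real.log N ^ D ∧ (N : ℝ) / Real.log N ^ D ≤ |f.coeff d| * (b : ℝ) ^ (d * m) ∧
  M ⊆ Digits b 𝒟 m ∧ ((Digits b 𝒟 m).card : ℝ) / Real.log N ^ D ≤ M.card ∧ ∀ n ∈ M, |f.eval (n : ℝ)| ≤ N

/-- The number of the primes in `(n, n + y]`. -/
def primesIn (n y : ℕ) : ℕ := ((Ioc n (n + y)).filter Nat.Prime).card

open Classical in
/-- The translate `A + s` has good points: for all integers `y` with `(log N) ^ K ≤ y ≤ N` the average of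
`primesIn (a + s) y` over the `a ∈ A` differs from `y / log N` by at most `ε y / log N`, and at least
`(1 / 4 - ε) |A|` elements `a` of `A` have at least `ε y / log N` primes in `(a + s, a + s + y]`. -/
noncomputable def Good (ε : ℝ) (K N : ℕ) (A : Finset ℕ) (s : ℕ) : Prop :=
  ∀ y : ℕ, Real.log N ^ K ≤ y → y ≤ N →
    |(∑ a ∈ A, (primesIn (a + s) y : ℝ)) * Real.log N - A.card * y| ≤ ε * (A.card * y) ∧
    (1 / 4 - ε) * A.card ≤ ((A.filter fun a => ε * y ≤ (primesIn (a + s) y : ℝ) * Real.log N).card : ℝ)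

lemma dat_of {b d D N m : ℕ} {𝒟 : ℕ → Finset ℕ} {f : ℝ[X]} {M : Finset ℕ} (h : Fam b d D N m 𝒟 f M) :
    Pool.Agent.X31.CT.Dat b d D N m 𝒟 f M :=
  ⟨h.1, h.2.1, h.2.2.1, h.2.2.2.1, h.2.2.2.2.1, h.2.2.2.2.2.1, h.2.2.2.2.2.2⟩

/-- Let `b, d ≥ 2` be integers. Let `D`, `U` be natural numbers and `0 < ε ≤ 1 / 4`. There is a `K` such that for all `N ≥ K`,
all numbers `m` of digits, ALL sets `𝒟 j` of allowed digits, ALL
real polynomials `f` and all sets `M` with `Fam b d D N m 𝒟 f M`, and EVERY set `A ⊆ {1, ..., N}` with at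
least `N / log ^ D N` elements: for all but at most `#M / log ^ U N` elements `n` of `M`, ALL integers `s` with `1 ≤ s ≤ N`
and `|s - f.eval (n : ℝ)| ≤ log ^ D N` satisfy `Good ε K N A s`. -/
theorem result (b d : ℕ) (hb : 2 ≤ b) (hd : 2 ≤ d) (D U : ℕ) (ε : ℝ)
    (hε : 0 < ε) (hε1 : ε ≤ 1 / 4) :
    ∃ K : ℕ, ∀ N : ℕ, K ≤ N → ∀ (m : ℕ) (𝒟 : ℕ → Finset ℕ) (f : ℝ[X]) (M : Finset ℕ), Fam b d D N m 𝒟 f M →
      ∀ A : Finset ℕ, A ⊆ Icc 1 N → (N : ℝ) / Real.log N ^ D ≤ (A.card : ℝ) →
      ∃ E : Finset ℕ, (E.card : ℝ) ≤ M.card / Real.log N ^ U ∧ ∀ n ∈ M, n ∉ E →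
        ∀ s : ℕ, 1 ≤ s → s ≤ N → |(s : ℝ) - f.eval (n : ℝ)| ≤ Real.log N ^ D → Good ε K N A s := by
  classical
  obtain ⟨h', hh, h1⟩ := (Pool.Agent.X31.Sch_dg hb hd).enum
  obtain ⟨C, N₁, h1⟩ := h1 h' le_rfl D
  obtain ⟨K₀, h2⟩ := Pool.Agent.Results.MP_711652_nt.ThinTranslates.general h' 2 (max C D) U ε hε hε1
  refine ⟨K₀ + N₁ + 3, fun N hN m 𝒟 f M hfam A hA hAc => ?_⟩
  have hlog1 : 1 ≤ Real.log N := by
    rw [Real.le_log_iff_exp_le (by exact_mod_cast (by omega : 0 < N))]
    have : (3 : ℝ) ≤ N := by exact_mod_cast (by omega : 3 ≤ N)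
    linarith [Real.exp_one_lt_d9]
  have hlog0 : 0 < Real.log N := by linarith
  obtain ⟨E, hE⟩ : ∃ E : Finset ℕ, E = M.filter (fun n : ℕ => ∃ s : ℕ, 1 ≤ s ∧ s ≤ N ∧
      |(s : ℝ) - f.eval (n : ℝ)| ≤ Real.log N ^ D ∧ ¬ Good ε (K₀ + N₁ + 3) N A s) := ⟨_, rfl⟩
  refine ⟨E, ?_, ?_⟩
  swap
  · intro n hn hnE s hb1 hb2 hb3
    by_contra hcon
    apply hnE
    rw [hE]
    exact mem_filter.2 ⟨hn, s, hb1, hb2, hb3, hcon⟩
  have hch : ∀ n ∈ E, ∃ s : ℕ, 1 ≤ s ∧ s ≤ N ∧
      |(s : ℝ) - f.eval (n : ℝ)| ≤ Real.log N ^ D ∧ ¬ Good ε (K₀ + N₁ + 3) N A s := by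
    intro n hn
    rw [hE] at hn
    exact (mem_filter.1 hn).2
  choose! r hr using hch
  obtain ⟨s, φ, g1, g2, g3, g4, g5⟩ := h1 N (by omega) M _ ⟨m, 𝒟, f, dat_of hfam, fun _ => rfl⟩ E
    (fun n => (r n : ℤ)) (by rw [hE]; exact filter_subset _ _) (by
      intro n hn
      have := (hr n hn).2.2.1
      push_cast
      exact this)
  have key := h2 N (by omega) M.card s (by
      intro j hj
      have := g4 j hj
      push_cast
      exact this) (by
      refine le_trans g5 ?_
      apply mul_le_mul_of_nonneg_right _ (by positivity)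
      exact pow_le_pow_right₀ hlog1 (le_max_left _ _)) A hA (by
      refine le_trans ?_ hAc
      apply div_le_div_of_nonneg_left (Nat.cast_nonneg _) (by positivity)
      exact pow_le_pow_right₀ hlog1 (le_max_right _ _))
  refine le_trans ?_ key
  unfold Pool.Agent.Results.MP_711652_nt.ThinTranslates.num
  apply Nat.cast_le.2
  rw [← card_image_of_injOn g1]
  apply card_le_card
  intro j hj
  obtain ⟨n, hn, rfl⟩ := mem_image.1 hj
  obtain ⟨k1, k2, k3, k4⟩ := hr n hn
  have hmem : ∀ (P : ℕ → Prop) (x j : ℕ), j ∈ Icc 1 x → P j →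
      j ∈ @filter ℕ P (fun a => Classical.propDecidable (P a)) (Icc 1 x) := by
    intro P x j q1 q2
    exact (@mem_filter ℕ P (fun a => Classical.propDecidable (P a)) (Icc 1 x) j).2 ⟨q1, q2⟩
  refine hmem _ _ _ (g2 n hn) ⟨?_, ?_, ?_⟩
  · rw [g3 n hn]
    exact_mod_cast k1
  · rw [g3 n hn]
    exact_mod_cast k2
  · rw [g3 n hn, Int.toNat_natCast]
    intro hG
    apply k4
    intro y hy1 hy2
    have hy1' : Real.log N ^ K₀ ≤ y := (pow_le_pow_right₀ hlog1 (by omega)).trans hy1
    exact hG y hy1' hy2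

end Pool.Agent.Results.MP_69be96_nt.MissingDigitTranslates
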