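import Pool.Agent.X10.PC.Rec

set_option autoImplicit false

/-!
# Gaps of record order around multiples together with composite values of polynomials (helper10)

Let `f₁, ..., f_r` be irreducible nonconstant polynomials over the integers and `R(X) = log X (log₂ X)² log₄ X /
(log₃ X)²`, the order of the largest prime gaps known below `X`. For large `X`, EVERY finite set `T` of multipliers with
prescribed lengths `K(α) ≥ log X`, `∑ K(α) |α|/φ(|α|) ≤ c R(X)`, and EVERY pattern of polynomial values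
`f_{j(s)}(a_s n + b_s)` with `∑ (|a_s|/φ(|a_s|))^deg ≤ c log X log₂ X log₄ X / log₃ X`: every interval `(M, M + X]`
contains `n` such that no prime is within `K(α)` of `α n`, for all `α` in `T`, and no value of the pattern is prime.

Proof: `Pool/Agent/X10/PC` (`assemble`: the covering theorem with vanishing weights `W154.PV` of the starting library,
for the values of several polynomials; `greedy_med`: greedy choice modulo the small primes after the medium primes are
used on the class `0`; the count of the integers without medium prime factors is `H361R2.PA.card_med`).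
-/

namespace Pool.Agent.Results.MP_69be96_nt.RecordGapsAndPolynomials

open Polynomial

/-- `R(x) = log x (log₂ x)² log₄ x / (log₃ x)²` -/
noncomputable def R (x : ℝ) : ℝ :=
  Real.log x * (Real.log (Real.log x)) ^ 2 * Real.log (Real.log (Real.log (Real.log x))) /
    (Real.log (Real.log (Real.log x))) ^ 2

/-- `P(x) = log x log₂ x log₄ x / log₃ x` -/
noncomputable def P (x : ℝ) : ℝ :=
  Real.log x * (Real.log (Real.log x) * Real.log (Real.log (Real.log (Real.log x))) /
    Real.log (Real.log (Real.log x)))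

/-- `|m| / φ(|m|)` -/
noncomputable def ratio (m : ℤ) : ℝ := (m.natAbs : ℝ) / (Nat.totient m.natAbs : ℝ)

theorem result (ι : Type) [Finite ι] (f : ι → ℤ[X]) (hf : ∀ i, Irreducible (f i))
    (hd : ∀ i, 0 < (f i).natDegree) :
    ∃ c : ℝ, 0 < c ∧ ∃ X₀ : ℕ, ∀ X : ℕ, X₀ ≤ X →
    ∀ (T : Finset ℤ) (K : ℤ → ℝ),
    (∀ α ∈ T, α ≠ 0 ∧ |(α : ℝ)| ≤ Real.exp (Real.log X ^ 2) ∧ Real.log X ≤ K α) →
    ∑ α ∈ T, K α * ratio α ≤ c * R X →
    ∀ (k : ℕ) (j : Fin k → ι) (a b : Fin k → ℤ),
    (∀ s, a s ≠ 0 ∧ |(a s : ℝ)| ≤ Real.exp (Real.log X ^ 2) ∧ |(b s : ℝ)| ≤ Real.exp (Real.log X ^ 2)) →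
    ∑ s, ratio (a s) ^ (f (j s)).natDegree ≤ c * P X →
    ∀ M : ℤ, ∃ n : ℤ, M < n ∧ n ≤ M + X ∧
      (∀ α ∈ T, ∀ q : ℤ, |(q : ℝ) - α * n| ≤ K α → ¬ Prime q) ∧
      ∀ s, ¬ Prime ((f (j s)).eval (a s * n + b s)) := by
  obtain ⟨c, hc, X₀, h⟩ := Pool.Agent.X10.PC.recpol f hf hd
  refine ⟨c, hc, X₀, fun X hX T K hT hTK k j a b hab hsum M => ?_⟩
  obtain ⟨n, h1, h2, h3, h4⟩ := h X hX T K hT hTK k j a b (fun s => (hab s).1) (fun s => (hab s).2.1)
    (fun s => (hab s).2.2) hsum M
  refine ⟨n, h1, h2, fun α hα q hq hp => ?_, fun s hp => h4 s (Int.prime_iff_natAbs_prime.1 hp)⟩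
  refine h3 α hα (q - α * n) (by push_cast; exact hq) ?_
  rw [show α * n + (q - α * n) = q by ring]
  exact Int.prime_iff_natAbs_prime.1 hp

end Pool.Agent.Results.MP_69be96_nt.RecordGapsAndPolynomials
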