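import Pool.Agent.X55.Mod.Sets

/-!
# Large gaps between the primes at prescribed residues modulo a large prime

Let `P` be a large prime. We find integers `n` WITHOUT primes at a distance of at most
`κ log P (log log P) ^ 2 log log log log P / (log log log P) ^ 2` among the integers

* of a set of residues `A` modulo `P` whose Fourier coefficients are at most `Γ`, in EVERY interval of a length
  `H ≤ P` with `|A| H ≥ Γ P ^ (1 + ε)`;
* of a coset of a subgroup `G` of the residues, in every interval of a length `H ≤ P` with `|G| H ≥ P ^ (3 / 2 + ε)`;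
* which are primitive roots of `P`, in every interval of a length of at least `P ^ (1 / 2 + ε)`;
* which are on the modular hyperbola `n m = c` modulo `P` with `n` and `m` in two intervals of the lengths `H`, `K ≤ P` with
  `H K ≥ P ^ (3 / 2 + ε)`.

For instance (`G` the squares): every interval of a length of at least `P ^ (1 / 2 + ε)` contains quadratic residues and
quadratic non-residues of `P` in the middle of such gaps.
The proof combines the covering theorem of the starting files (`Pool.Agent.TH915.PW`) with incomplete sums,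
with Weil's bound for the Kloosterman sums and with a Moebius formula for primitive roots.
-/

set_option autoImplicit false

namespace Pool.Agent.Results.MP_69be96_nt.ResiduesModuloPrimes

open Finset Filter

/-- There is no prime at a distance of at most `κ log P (log₂ P) ^ 2 log₄ P / (log₃ P) ^ 2` from `n`. -/
def NoPrimeNear (κ : ℝ) (P n : ℕ) : Prop :=
  ∀ q : ℕ, q.Prime → κ * (Real.log P * (Real.log (Real.log P)) ^ 2 *
    Real.log (Real.log (Real.log (Real.log P))) / (Real.log (Real.log (Real.log P))) ^ 2) < |(q : ℝ) - n|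

theorem result (ε : ℝ) (hε : 0 < ε) (hε1 : ε ≤ 1) : ∃ κ : ℝ, 0 < κ ∧ ∃ P₀ : ℕ, ∀ P : ℕ, P₀ ≤ P →
    ∀ [Fact P.Prime],
    -- sets of residues with small Fourier coefficients
    (∀ (A : Finset (ZMod P)) (Γ : ℝ), 1 ≤ Γ →
      (∀ a : ZMod P, a ≠ 0 → ‖∑ x ∈ A, (ZMod.stdAddChar (a * x) : ℂ)‖ ≤ Γ) →
      ∀ M H : ℕ, H ≤ P → Γ * (P : ℝ) ^ (1 + ε) ≤ A.card * H →
      ∃ n : ℕ, M < n ∧ n ≤ M + H ∧ (n : ZMod P) ∈ A ∧ NoPrimeNear κ P n) ∧
    -- cosets of subgroups
    (∀ (G : Subgroup (ZMod P)ˣ) (c : (ZMod P)ˣ) (M H : ℕ), H ≤ P →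
      (P : ℝ) ^ (3 / 2 + ε) ≤ (Nat.card G : ℝ) * H →
      ∃ n : ℕ, M < n ∧ n ≤ M + H ∧ (∃ g ∈ G, (n : ZMod P) = (c : ZMod P) * (g : ZMod P)) ∧
        NoPrimeNear κ P n) ∧
    -- primitive roots
    (∀ M H : ℕ, H ≤ P → (P : ℝ) ^ (1 / 2 + ε) ≤ H →
      ∃ n : ℕ, M < n ∧ n ≤ M + H ∧ orderOf (n : ZMod P) = P - 1 ∧ NoPrimeNear κ P n) ∧
    -- modular hyperbolas
    (∀ c : ZMod P, c ≠ 0 → ∀ M H L K : ℕ, H ≤ P → K ≤ P → (P : ℝ) ^ (3 / 2 + ε) ≤ (H : ℝ) * K →
      ∃ n m : ℕ, M < n ∧ n ≤ M + H ∧ L < m ∧ m ≤ L + K ∧ (n : ZMod P) * (m : ZMod P) = c ∧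
        NoPrimeNear κ P n) := by
  classical
  obtain ⟨κ, hκ, P₁, hgen⟩ := Pool.Agent.X55.Mod.gen (ε / 2) (by linarith) (by linarith)
  obtain ⟨C, hC, hdiv⟩ := Pool.Agent.Helper112.divisor_bound (ε / 8) (by linarith)
  have hlog : ∀ᶠ x : ℝ in atTop, Real.log x ≤ x ^ (ε / 4) := by
    have h := (isLittleO_log_rpow_atTop (show (0 : ℝ) < ε / 4 by linarith)).def (show (0 : ℝ) < 1 by norm_num)
    filter_upwards [h, eventually_ge_atTop (1 : ℝ)] with X hX hX1
    rwa [Real.norm_eq_abs, abs_of_nonneg (Real.log_nonneg hX1), Real.norm_eq_abs,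
      abs_of_nonneg (Real.rpow_nonneg (by linarith) _), one_mul] at hX
  have hev := hlog.and ((Pool.Agent.W147.PS.ev_pow (ε / 4) (ε / 2) 16 (by linarith)).and
    ((Pool.Agent.W147.PS.ev_pow (ε / 4) (ε / 2) (2 * C ^ 2) (by linarith)).and (eventually_ge_atTop (4 : ℝ))))
  obtain ⟨X₀, hX₀⟩ := eventually_atTop.mp hev
  refine ⟨κ, hκ, max P₁ ⌈X₀⌉₊, ?_⟩
  intro P hP0 _
  have hpp : P.Prime := Fact.out
  have hpX : X₀ ≤ (P : ℝ) := (Nat.le_ceil _).trans (by exact_mod_cast (le_max_right _ _).trans hP0)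
  obtain ⟨c1, c2, c3, c4⟩ := hX₀ P hpX
  have hpR : (0 : ℝ) < P := by linarith
  have hP1 : (1 : ℝ) ≤ P := by linarith
  have hG := hgen P ((le_max_left _ _).trans hP0)
  have hs1 : (1 : ℝ) ≤ Real.sqrt P := by rwa [Real.one_le_sqrt]
  have hsq : Real.sqrt P = (P : ℝ) ^ (1 / 2 : ℝ) := Real.sqrt_eq_rpow _
  have hx1 : (1 : ℝ) ≤ (P : ℝ) ^ (ε / 4) := Real.one_le_rpow hP1 (by linarith)
  refine ⟨?_, ?_, ?_, ?_⟩
  · intro A Γ hΓ hA M H hH hAH
    refine hG A Γ hΓ hA M H hH (le_trans ?_ hAH)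
    have : (P : ℝ) ^ (1 + ε / 2) ≤ (P : ℝ) ^ (1 + ε) := Real.rpow_le_rpow_of_exponent_le hP1 (by linarith)
    gcongr
  · intro G c M H hH hGH
    obtain ⟨n, h1, h2, h3, h4⟩ := hG (Pool.Agent.X55.Mod.coset G c) (Real.sqrt P) hs1
      (fun a ha => Pool.Agent.X55.Mod.coset_sum G c a ha) M H hH (by
        rw [Pool.Agent.X55.Mod.coset_card]
        refine le_trans ?_ hGH
        rw [hsq, ← Real.rpow_add hpR]
        exact Real.rpow_le_rpow_of_exponent_le hP1 (by linarith))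
    refine ⟨n, h1, h2, ?_, h4⟩
    rw [Pool.Agent.X55.Mod.coset, mem_image] at h3
    obtain ⟨g, _, hg⟩ := h3
    exact ⟨g, g.2, hg.symm⟩
  · intro M H hH hPH
    have h1n : 1 ≤ P - 1 := by have := hpp.two_le; omega
    set τ : ℝ := ((P - 1).divisors.card : ℝ) with hτ
    have hτ1 : 1 ≤ τ := by
      have : 1 ≤ (P - 1).divisors.card := card_pos.2 ⟨1, Nat.one_mem_divisors.2 (by omega)⟩
      rw [hτ]
      exact_mod_cast this
    have hτ2 : τ ≤ C * (P : ℝ) ^ (ε / 8) := by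
      refine (hdiv (P - 1) h1n).trans ?_
      have : ((P - 1 : ℕ) : ℝ) ≤ P := by exact_mod_cast Nat.sub_le _ _
      gcongr
    have hτ3 : 2 * τ ^ 2 ≤ (P : ℝ) ^ (ε / 2) := by
      refine le_trans ?_ c3
      have : τ ^ 2 ≤ (C * (P : ℝ) ^ (ε / 8)) ^ 2 := by gcongr
      have h2 : (C * (P : ℝ) ^ (ε / 8)) ^ 2 = C ^ 2 * (P : ℝ) ^ (ε / 4) := by
        rw [mul_pow, ← Real.rpow_natCast ((P : ℝ) ^ (ε / 8)), ← Real.rpow_mul hpR.le]
        congr 2
        push_cast
        ring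
      rw [h2] at this
      linarith
    have htot : (P : ℝ) ≤ 2 * (τ * (P - 1).totient) := by
      have h3 : P - 1 ≤ (P - 1).divisors.card * (P - 1).totient := by
        conv_lhs => rw [← Nat.sum_totient (P - 1)]
        rw [← smul_eq_mul]
        apply Finset.sum_le_card_nsmul
        intro d hd
        exact Nat.le_of_dvd (Nat.totient_pos.mpr (by omega))
          (Nat.totient_dvd_of_dvd (Nat.dvd_of_mem_divisors hd))
      have h4 : ((P - 1 : ℕ) : ℝ) ≤ τ * (P - 1).totient := by rw [hτ]; exact_mod_cast h3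
      have h5 : ((P - 1 : ℕ) : ℝ) = P - 1 := by rw [Nat.cast_sub hpp.one_lt.le, Nat.cast_one]
      rw [h5] at h4
      linarith
    obtain ⟨n, h1, h2, h3, h4⟩ := hG Pool.Agent.X55.Mod.prim (τ * Real.sqrt P) (by nlinarith)
      (fun a ha => Pool.Agent.X55.Mod.prim_bound a ha) M H hH (by
        rw [Pool.Agent.X55.Mod.prim_card]
        have h5 : τ * Real.sqrt P * (P : ℝ) ^ (1 + ε / 2) * (2 * τ) ≤ P * H := by
          calc τ * Real.sqrt P * (P : ℝ) ^ (1 + ε / 2) * (2 * τ) =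
                (2 * τ ^ 2) * ((P : ℝ) ^ (1 / 2 : ℝ) * (P : ℝ) ^ (1 + ε / 2)) := by rw [hsq]; ring
            _ ≤ (P : ℝ) ^ (ε / 2) * ((P : ℝ) ^ (1 / 2 : ℝ) * (P : ℝ) ^ (1 + ε / 2)) := by gcongr
            _ = (P : ℝ) * (P : ℝ) ^ (1 / 2 + ε) := by
                rw [← Real.rpow_add hpR, ← Real.rpow_add hpR]
                conv_rhs => rw [← Real.rpow_one_add' hpR.le (by linarith)]
                congr 1
                ring
            _ ≤ P * H := by gcongr
        have h6 : (P : ℝ) * H ≤ ((P - 1).totient * H) * (2 * τ) := by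
          have : (P : ℝ) * H ≤ (2 * (τ * (P - 1).totient)) * H := by gcongr
          linarith
        exact le_of_mul_le_mul_right (h5.trans h6) (by linarith))
    rw [Pool.Agent.X55.Mod.prim, mem_filter] at h3
    exact ⟨n, h1, h2, h3.2, h4⟩
  · intro c hc M H L K hH hK hHK
    have hKP : (P : ℝ) ^ (1 / 2 + ε) ≤ K := by
      have h1 : (P : ℝ) * (P : ℝ) ^ (1 / 2 + ε) ≤ P * K := by
        calc (P : ℝ) * (P : ℝ) ^ (1 / 2 + ε) = (P : ℝ) ^ (3 / 2 + ε) := by
              rw [← Real.rpow_one_add' hpR.le (by linarith)]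
              congr 1
              ring
          _ ≤ H * K := hHK
          _ ≤ P * K := by gcongr
      exact le_of_mul_le_mul_left h1 hpR
    have hK2 : (2 : ℝ) ≤ K := by
      refine le_trans ?_ hKP
      calc (2 : ℝ) = Real.sqrt 4 := by
            rw [show (4 : ℝ) = 2 ^ 2 by norm_num, Real.sqrt_sq (by norm_num)]
        _ ≤ Real.sqrt P := Real.sqrt_le_sqrt c4
        _ = (P : ℝ) ^ (1 / 2 : ℝ) := hsq
        _ ≤ _ := Real.rpow_le_rpow_of_exponent_le hP1 (by linarith)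
    have hcard := Pool.Agent.X55.Mod.hyp_card c hc L K hK
    have hcard' : (K : ℝ) / 2 ≤ (Pool.Agent.X55.Mod.hyp c L K).card := by
      have : (K : ℝ) ≤ (Pool.Agent.X55.Mod.hyp c L K).card + 1 := by exact_mod_cast hcard
      linarith
    have hl0 : 0 ≤ Real.log P := Real.log_nonneg hP1
    obtain ⟨n, h1, h2, h3, h4⟩ := hG (Pool.Agent.X55.Mod.hyp c L K) (2 * Real.sqrt P * (3 + Real.log P))
      (by nlinarith) (fun a ha => Pool.Agent.X55.Mod.hyp_bound c hc L K hK a ha) M H hH (by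
        have h5 : 4 * (3 + Real.log P) ≤ (P : ℝ) ^ (ε / 2) := by linarith
        have h6 : 2 * Real.sqrt P * (3 + Real.log P) * (P : ℝ) ^ (1 + ε / 2) ≤ H * K / 2 := by
          calc 2 * Real.sqrt P * (3 + Real.log P) * (P : ℝ) ^ (1 + ε / 2) =
              (4 * (3 + Real.log P)) * ((P : ℝ) ^ (1 / 2 : ℝ) * (P : ℝ) ^ (1 + ε / 2)) / 2 := by
                rw [hsq]; ring
            _ ≤ (P : ℝ) ^ (ε / 2) * ((P : ℝ) ^ (1 / 2 : ℝ) * (P : ℝ) ^ (1 + ε / 2)) / 2 := by gcongr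
            _ = (P : ℝ) ^ (3 / 2 + ε) / 2 := by
                rw [← Real.rpow_add hpR, ← Real.rpow_add hpR]
                congr 2
                ring
            _ ≤ H * K / 2 := by linarith
        refine h6.trans ?_
        calc (H : ℝ) * K / 2 = (K : ℝ) / 2 * H := by ring
          _ ≤ _ := by gcongr)
    rw [Pool.Agent.X55.Mod.hyp, mem_filter] at h3
    obtain ⟨_, _, m, hm, hnm⟩ := h3
    rw [mem_Ioc] at hm
    exact ⟨n, m, h1, h2, hm.1, hm.2, hnm, h4⟩

end Pool.Agent.Results.MP_69be96_nt.ResiduesModuloPrimes
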